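import Pool.Agent.H93Z.Rob.Slow

/-! The unperturbed walk on the cascade mixes quickly; choice of parameters. -/

set_option autoImplicit false
set_option linter.unusedSectionVars false

namespace Pool.Agent.H93Z.Rob

open Finset Matrix

variable {J m : ℕ} {l μ : ℕ → ℕ}

lemma card_Ix : (Fintype.card (Ix J l μ) : ℝ) = ∑ i : Fin J, rho l μ i := by
  simp only [Fintype.card_sigma, Fintype.card_prod, Fintype.card_fin, rho]
  push_cast
  exact Finset.sum_congr rfl fun _ _ => by ring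

lemma sum_ne (f : (Fin m → ZMod 2) → ℝ) :
    ∑ z : {z : Fin m → ZMod 2 // z ≠ 0}, f z.1 = ∑ z, f z - f 0 := by
  rw [← Finset.sum_subtype (univ.erase 0) (by simp) f, ← Finset.add_sum_erase _ _ (mem_univ 0)]
  ring

lemma card_Sx : (Fintype.card (Sx J l μ m) : ℝ) = Fintype.card (Ix J l μ) + 2 ^ m - 1 := by
  have h := sum_ne (m := m) (fun _ => 1)
  simp only [Finset.sum_const, Finset.card_univ, nsmul_eq_mul, mul_one, Fintype.card_pi,
    ZMod.card, Finset.prod_const, Fintype.card_fin] at h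
  rw [Fintype.card_sum]
  push_cast at h ⊢
  rw [h]; ring

lemma sum_gen (lab : Ix J l μ → Fin m → ZMod 2) (a : Vx J l m) :
    ∑ s, ch a (gen lab s) = ∑ q, chi a.1 (gx q) * chi a.2 (lab q) +
      ((if a.2 = 0 then (2 : ℝ) ^ m else 0) - 1) := by
  rw [Fintype.sum_sum_type]
  simp only [gen, ch, chi_zero, one_mul]
  rw [sum_ne (fun z => chi a.2 z)]
  simp only [chi_symm a.2, sum_chi]
  simp [chi_symm _ a.2]

lemma sum_gx (a : Co J l → ZMod 2) :
    ∑ q : Ix J l μ, chi a (gx q) ≤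
      ∑ i : Fin J, (rho l μ i - μ i * (l (i + 1) : ℝ) ^ 2 * cnt a i) := by
  rw [Fintype.sum_sigma]
  refine Finset.sum_le_sum fun i _ => ?_
  simp only [gx, chi_add, chi_E, Fintype.sum_prod_type, Finset.sum_const, Finset.card_univ,
    Fintype.card_fin, nsmul_eq_mul, ← Finset.mul_sum, ← Finset.sum_mul, sum_sgn, rho]
  have h1 := cnt_nonneg a (i + 1)
  have h2 := cnt_le a (i + 1)
  have h3 := cnt_nonneg a i
  have h4 := cnt_le a i
  set L : ℝ := (l (i + 1) : ℝ)
  set o := cnt a (i + 1)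
  set n := cnt a i
  set k : ℝ := (l i : ℝ)
  have h5 : (L - 2 * o) ^ 2 ≤ L ^ 2 := by nlinarith
  have h6 : (k - 2 * n) * (L - 2 * o) ^ 2 ≤ (k - n) * L ^ 2 :=
    (mul_le_mul_of_nonneg_right (by linarith) (sq_nonneg _)).trans
      (mul_le_mul_of_nonneg_left h5 (by linarith))
  have := mul_le_mul_of_nonneg_left h6 (Nat.cast_nonneg (α := ℝ) (μ i))
  linarith

theorem fast (lab : Ix J l μ → Fin m → ZMod 2) (hD : (0 : ℝ) < Fintype.card (Sx J l μ m))
    (hI : (Fintype.card (Ix J l μ) : ℝ) ≤ 2 ^ m) {t : ℕ}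
    (h1 : ∑ i : Fin J, (l i : ℝ) *
      Real.exp (-(t * (μ i * (l (i + 1) : ℝ) ^ 2) / Fintype.card (Sx J l μ m))) ≤ 1 / 15)
    (h2 : (Fintype.card (Vx J l m) : ℝ) * (3 / 4) ^ (2 * t) ≤ 1 / 8) :
    MixP (Wm (gen lab) fun _ _ => 1) t := by
  have : Nonempty (Sx J l μ m) := Fintype.card_pos_iff.mp (by exact_mod_cast hD)
  refine mix_fourier (gen lab) ch vx_add_self ch_add ch_symm sum_ch ?_
  set D : ℝ := (Fintype.card (Sx J l μ m) : ℝ) with hDdef
  set e : ℕ → ℝ := fun i => Real.exp (-(t * (μ i * (l (i + 1) : ℝ) ^ 2) / D)) with he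
  set G : (Co J l → ZMod 2) → ℝ := fun a => ∏ c, if a c = 0 then 1 else e c.1 with hG
  have hlam0 : ∀ a : Vx J l m, 0 ≤ 1 / 2 + (∑ s, ch a (gen lab s)) / (2 * D) := by
    intro a
    have h3 : ∑ _s : Sx J l μ m, (-1 : ℝ) ≤ ∑ s, ch a (gen lab s) := Finset.sum_le_sum fun s _ => by
      have : |ch a (gen lab s)| = 1 := by rw [ch, abs_mul, abs_chi, abs_chi, one_mul]
      linarith [neg_abs_le (ch a (gen lab s))]
    simp only [Finset.sum_const, Finset.card_univ, nsmul_eq_mul] at h3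
    have h4 : -(1 / 2) ≤ (∑ s, ch a (gen lab s)) / (2 * D) := by
      rw [le_div_iff₀ (by positivity)]; linarith
    linarith
  have hb : ∀ a : Vx J l m, (1 / 2 + (∑ s, ch a (gen lab s)) / (2 * D)) ^ (2 * t) ≤
      (if a.2 = 0 then G a.1 else 0) + (3 / 4) ^ (2 * t) := by
    intro a
    have h3 := hlam0 a
    have hc := card_Sx (J := J) (l := l) (μ := μ) (m := m)
    rw [← hDdef] at hc
    split_ifs with h
    · refine le_add_of_le_of_nonneg ?_ (by positivity)
      have h4 : 1 / 2 + (∑ s, ch a (gen lab s)) / (2 * D) ≤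
          1 - (∑ i : Fin J, μ i * (l (i + 1) : ℝ) ^ 2 * cnt a.1 i) / (2 * D) := by
        have h5 := sum_gx (μ := μ) a.1
        rw [Finset.sum_sub_distrib, ← card_Ix] at h5
        have h6 : ∑ s, ch a (gen lab s) ≤
            D - ∑ i : Fin J, μ i * (l (i + 1) : ℝ) ^ 2 * cnt a.1 i := by
          rw [sum_gen, if_pos h, h]
          simp only [chi_symm 0, chi_zero, mul_one]
          linarith
        have h7 := div_le_div_of_nonneg_right h6 (show 0 ≤ 2 * D by positivity)
        rw [sub_div] at h7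
        have h8 : D / (2 * D) = 1 / 2 := by field_simp
        linarith
      refine (pow_le_pow_left₀ h3 (h4.trans (Real.one_sub_le_exp_neg _)) _).trans (le_of_eq ?_)
      rw [← Real.exp_nat_mul, hG]
      have h9 : ∀ c : Co J l, (if a.1 c = 0 then (1 : ℝ) else e c.1) =
          Real.exp (-(t * (μ c.1 * (l (c.1 + 1) : ℝ) ^ 2) / D) * ((1 - sgn (a.1 c)) / 2)) := by
        intro c
        rcases zmod2_cases (a.1 c) with h0 | h0 <;> simp [h0, he]
      simp only [h9, ← Real.exp_sum]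
      congr 1
      rw [Fintype.sum_sigma, Finset.sum_div, ← Finset.sum_neg_distrib, Finset.mul_sum]
      refine Finset.sum_congr rfl fun i _ => ?_
      simp only [← Finset.mul_sum]
      have : cnt a.1 i = ∑ u : Fin (l i), (1 - sgn (a.1 ⟨i, u⟩)) / 2 := by simp [cnt, bit]
      rw [this]
      push_cast
      field_simp
    · rw [zero_add]
      refine pow_le_pow_left₀ h3 ?_ _
      have h5 : ∑ q, chi a.1 (gx q) * chi a.2 (lab q) ≤ ∑ _q : Ix J l μ, (1 : ℝ) :=
        Finset.sum_le_sum fun q _ => (le_abs_self _).trans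
          (by rw [abs_mul, abs_chi, abs_chi, one_mul])
      simp only [Finset.sum_const, Finset.card_univ, nsmul_eq_mul, mul_one] at h5
      have h6 : (∑ s, ch a (gen lab s)) / (2 * D) ≤ 1 / 4 := by
        rw [sum_gen, if_neg h, div_le_iff₀ (by positivity)]; linarith
      linarith
  refine (Finset.sum_le_sum fun a _ => hb a).trans ?_
  rw [Finset.sum_add_distrib]
  have h3 : ∑ _a ∈ (univ : Finset (Vx J l m)).erase 0, ((3 : ℝ) / 4) ^ (2 * t) ≤ 1 / 8 := by
    refine le_trans (Finset.sum_le_sum_of_subset_of_nonneg (subset_univ _)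
      fun _ _ _ => by positivity) ?_
    simpa only [Finset.sum_const, Finset.card_univ, nsmul_eq_mul] using h2
  have h4 : ∑ a ∈ (univ : Finset (Vx J l m)).erase 0, (if a.2 = 0 then G a.1 else 0) =
      ∏ c : Co J l, (1 + e c.1) - 1 := by
    have h5 := Finset.add_sum_erase univ
      (fun a : Vx J l m => if a.2 = 0 then G a.1 else 0) (mem_univ 0)
    rw [Fintype.sum_prod_type] at h5
    simp only [Finset.sum_ite_eq', mem_univ, if_true] at h5
    have h6 : ∑ a, G a = ∏ c : Co J l, (1 + e c.1) := by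
      simp only [hG]
      rw [← Fintype.piFinset_univ,
        ← Finset.prod_univ_sum (fun _ => univ) (fun (c : Co J l) (b : ZMod 2) =>
          if b = 0 then (1 : ℝ) else e c.1)]
      simp [sum_zmod2]
    rw [← h6, ← h5]
    simp [hG]
  have h5 : ∏ c : Co J l, (1 + e c.1) ≤ Real.exp (1 / 15) := by
    refine le_trans (Finset.prod_le_prod (g := fun c => Real.exp (e c.1))
      (fun c _ => by simp only [he]; positivity)
      fun c _ => by linarith [Real.add_one_le_exp (e c.1)]) ?_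
    rw [← Real.exp_sum, Real.exp_le_exp, Fintype.sum_sigma]
    simpa only [Finset.sum_const, Finset.card_univ, Fintype.card_fin, nsmul_eq_mul] using h1
  have h6 := Real.exp_bound_div_one_sub_of_interval (x := 1 / 15) (by norm_num) (by norm_num)
  rw [h4]
  norm_num at h6
  linarith

lemma gen_all (lab : Ix J l μ → Fin m → ZMod 2) (hl : ∀ i, 0 < l i) (hμ : ∀ i < J, 0 < μ i)
    (p : Vx J l m → Prop) (h0 : p 0) (hadd : ∀ x y, p x → p y → p (x + y))
    (hs : ∀ s, p (gen lab s)) (x : Vx J l m) : p x := by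
  have h1 : ∀ z, p (0, z) := fun z => by
    by_cases h : z = 0
    · rw [h]; exact h0
    · exact hs (Sum.inr ⟨z, h⟩)
  have h2 : ∀ c : Co J l, p (Pi.single c 1, 0) := by
    rintro ⟨i, v⟩
    have h3 := hadd _ _ (hs (Sum.inl ⟨i, ⟨0, hl _⟩, ⟨0, hl _⟩, v, ⟨0, hμ i i.2⟩⟩))
      (h1 (lab ⟨i, ⟨0, hl _⟩, ⟨0, hl _⟩, v, ⟨0, hμ i i.2⟩⟩))
    simp only [gen, gx, Prod.mk_add_mk, add_assoc, pi_add_self, add_zero] at h3
    convert h3 using 2
    funext ⟨i', v'⟩
    simp only [E, Pi.single_apply]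
    refine if_congr ⟨fun h => ?_, fun h => ?_⟩ rfl rfl
    · cases h; exact ⟨rfl, rfl⟩
    · obtain ⟨h4, h5⟩ := h
      have : i' = i := Fin.ext h4
      subst this
      rw [Fin.ext h5]
  have h3 : ∀ y : Co J l → ZMod 2, p (y, 0) := by
    intro y
    refine Pi.single_induction (fun y => p (y, 0)) y h0 (fun f g hf hg => ?_) fun c b => ?_
    · simpa using hadd _ _ hf hg
    · rcases zmod2_cases b with rfl | rfl
      · rw [Pi.single_zero]; exact h0
      · exact h2 c
  simpa using hadd _ _ (h3 x.1) (h1 x.2)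

lemma geom_le {q : ℝ} (h0 : 0 ≤ q) (h1 : q ≤ 1 / 2) (a J : ℕ) :
    ∑ i : Fin J, q ^ (a + i) ≤ 2 * q ^ a := by
  simp only [pow_add, ← Finset.mul_sum]
  rw [mul_comm 2, Fin.sum_univ_eq_sum_range (fun i => q ^ i)]
  refine mul_le_mul_of_nonneg_left ?_ (by positivity)
  exact (Finset.sum_le_sum fun i _ => pow_le_pow_left₀ h0 h1 i).trans (sum_geometric_two_le J)

theorem counter (C : ℝ) (hC : 0 < C) : ∃ (J m : ℕ) (l μ : ℕ → ℕ) (lab : Ix J l μ → Fin m → ZMod 2)
    (t : ℕ), Function.Injective lab ∧ (∀ i, 0 < l i) ∧ (∀ i < J, 0 < μ i) ∧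
      MixP (Wm (gen lab) fun _ _ => 1) t ∧ ¬ MixP (Wm (gen lab) wt) ⌈C * (t : ℝ)⌉₊ := by
  obtain ⟨a0, ha0⟩ := exists_pow_lt_of_lt_one
    (show 0 < 1 / (105600 * (13 * C + 1)) by positivity) (show (1 : ℝ) / 128 < 1 by norm_num)
  set a := a0 + 2 with ha
  obtain ⟨J, hJ0, hJ⟩ : ∃ J : ℕ, 0 < J ∧
      990 * (13 * C + 1) ≤ ∑ i ∈ range J, 1 / ((a + i : ℕ) : ℝ) := by
    have h1 := Real.tendsto_sum_range_one_div_nat_succ_atTop
    obtain ⟨n, hn⟩ := (h1.eventually_ge_atTop (a * (990 * (13 * C + 1)))).exists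
    refine ⟨n + 1, n.succ_pos, ?_⟩
    have ha0' : (0 : ℝ) < a := by rw [ha]; positivity
    refine le_trans ?_ (Finset.sum_le_sum_of_subset_of_nonneg
      (Finset.range_subset_range.mpr n.le_succ) fun _ _ _ => by positivity)
    refine le_of_mul_le_mul_left (hn.trans ?_) ha0'
    rw [Finset.mul_sum]
    refine Finset.sum_le_sum fun i _ => ?_
    have h2 : (1 : ℝ) ≤ a := by rw [ha]; push_cast; linarith [Nat.cast_nonneg (α := ℝ) a0]
    have h3 : (0 : ℝ) ≤ i := Nat.cast_nonneg _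
    rw [mul_one_div, div_le_div_iff₀ (by positivity) (by push_cast; positivity)]
    push_cast
    nlinarith
  set l : ℕ → ℕ := fun i => 256 ^ (a + i) with hl
  set μ : ℕ → ℕ := fun i => (a + i) * 256 ^ (2 * (J - i - 1)) with hμ
  set M : ℕ := 256 ^ (2 * (a + J)) with hM
  have hM0 : (0 : ℝ) < M := by rw [hM]; positivity
  have hr : ∀ i < J, (μ i : ℝ) * (l (i + 1) : ℝ) ^ 2 = ((a + i : ℕ) : ℝ) * M := by
    intro i hi
    have : μ i * l (i + 1) ^ 2 = (a + i) * M := by
      simp only [hμ, hl, hM]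
      rw [mul_assoc, ← pow_mul, ← pow_add]
      congr 2; omega
    exact_mod_cast this
  have hl0 : ∀ i, 1024 ≤ l i := fun i =>
    le_trans (by norm_num) (Nat.pow_le_pow_right (n := 256) (by norm_num) (show 2 ≤ a + i by omega))
  have hlR : ∀ i, (0 : ℝ) < l i := fun i => by have := hl0 i; positivity
  have hai : ∀ i : ℕ, (0 : ℝ) < ((a + i : ℕ) : ℝ) := fun i => by rw [ha]; positivity
  have hrho : ∀ i < J, rho l μ i = ((a + i : ℕ) : ℝ) * M * l i := fun i hi => by
    rw [rho, hr i hi]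
  set L := Fintype.card (Co J l) with hL
  set X := Fintype.card (Ix J l μ) with hX
  set Y := X + M * (L + 7) with hY
  have hY1 : Y + 1 ≤ 2 ^ Y := Nat.lt_two_pow_self
  have hm1 : X ≤ 2 ^ (2 * Y) :=
    le_trans (by omega) (hY1.trans (Nat.pow_le_pow_right (by norm_num) (by omega)))
  have hm2 : M * (L + 2 * Y + 5) ≤ 2 ^ (2 * Y) := by
    rw [two_mul Y, pow_add]
    have h1 : M * (L + 7) ≤ Y := by omega
    refine le_trans ?_ (Nat.mul_le_mul hY1 hY1)
    have h2 : M * (L + 5) ≤ Y := le_trans (Nat.mul_le_mul_left _ (by omega)) h1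
    have h3 : M * 2 ≤ Y := le_trans (Nat.mul_le_mul_left _ (by omega)) h1
    have h4 := Nat.mul_le_mul_right Y h3
    nlinarith
  obtain ⟨lab⟩ : Nonempty (Ix J l μ ↪ (Fin (2 * Y) → ZMod 2)) :=
    Function.Embedding.nonempty_of_card_le (by
      rw [Fintype.card_fun, ZMod.card, Fintype.card_fin]; exact hm1)
  set m := 2 * Y with hm
  have hX1 : (1 : ℝ) ≤ X := by
    have : Nonempty (Ix J l μ) := ⟨⟨⟨0, hJ0⟩, ⟨0, lt_of_lt_of_le (by norm_num) (hl0 _)⟩,
      ⟨0, lt_of_lt_of_le (by norm_num) (hl0 _)⟩, ⟨0, lt_of_lt_of_le (by norm_num) (hl0 _)⟩,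
      ⟨0, by simp only [hμ, ha]; positivity⟩⟩⟩
    exact_mod_cast Fintype.card_pos
  have hDc := card_Sx (J := J) (l := l) (μ := μ) (m := m)
  set D : ℝ := (Fintype.card (Sx J l μ m) : ℝ) with hD
  have hDM : (L : ℝ) + m + 5 ≤ D / M := by
    rw [le_div_iff₀ hM0]
    have : ((M * (L + m + 5) : ℕ) : ℝ) ≤ ((2 ^ m : ℕ) : ℝ) := by exact_mod_cast hm2
    push_cast at this
    linarith
  have hDM1 : 1 ≤ D / M := by
    have : (0 : ℝ) ≤ L + m := by positivity
    linarith
  have hD0 : 0 < D := by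
    have := (le_div_iff₀ hM0).mp hDM1
    linarith
  set t := ⌈12 * (D / M)⌉₊ with ht
  have ht1 : 12 * (D / M) ≤ t := Nat.le_ceil _
  have ht2 : (t : ℝ) ≤ 13 * (D / M) := by
    have := Nat.ceil_lt_add_one (show 0 ≤ 12 * (D / M) by positivity)
    linarith
  have ht3 : (⌈C * (t : ℝ)⌉₊ : ℝ) ≤ (13 * C + 1) * (D / M) := by
    have := Nat.ceil_lt_add_one (show 0 ≤ C * (t : ℝ) by positivity)
    have := mul_le_mul_of_nonneg_left ht2 hC.le
    linarith
  refine ⟨J, m, l, μ, lab, t, lab.injective, fun i => by have := hl0 i; omega,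
    fun i _ => by simp only [hμ, ha]; positivity, fast lab hD0 (by exact_mod_cast hm1) ?_ ?_,
    slow lab hJ0 ?_ hl0 ?_ hD0 ?_ ?_⟩
  · have h1 : ∀ i : Fin J, (l i : ℝ) * Real.exp (-(t * (μ i * (l (i + 1) : ℝ) ^ 2) / D)) ≤
        (1 / 16) ^ (a + i) := by
      intro i
      rw [hr i i.2]
      have h2 : -(t * (((a + i : ℕ) : ℝ) * M) / D) ≤ ((a + i : ℕ) : ℝ) * (-12) := by
        have h3 : 12 ≤ t * M / D := by
          rw [le_div_iff₀ hD0]
          have := mul_le_mul_of_nonneg_right ht1 hM0.le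
          rwa [mul_assoc, div_mul_cancel₀ _ hM0.ne'] at this
        have h4 := mul_le_mul_of_nonneg_left h3 (hai i).le
        have h5 : t * (((a + i : ℕ) : ℝ) * M) / D = ((a + i : ℕ) : ℝ) * (t * M / D) := by ring
        linarith
      have h6 : Real.exp (-12) ≤ 1 / 4096 := by
        have h7 : Real.exp (-1) ≤ 1 / 2 := by
          rw [Real.exp_neg, ← one_div]
          apply one_div_le_one_div_of_le (by norm_num)
          linarith [Real.add_one_le_exp (1 : ℝ)]
        have h8 := pow_le_pow_left₀ (Real.exp_pos _).le h7 12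
        rw [← Real.exp_nat_mul] at h8
        norm_num at h8 ⊢
        exact h8
      have h7 := Real.exp_le_exp.mpr h2
      rw [Real.exp_nat_mul] at h7
      have h8 := h7.trans (pow_le_pow_left₀ (Real.exp_pos _).le h6 _)
      refine (mul_le_mul_of_nonneg_left h8 (hlR i).le).trans (le_of_eq ?_)
      simp only [hl]
      push_cast
      rw [← mul_pow]; norm_num
    refine (Finset.sum_le_sum fun i _ => h1 i).trans
      ((geom_le (by norm_num) (by norm_num) a J).trans ?_)
    have : ((1 : ℝ) / 16) ^ a ≤ (1 / 16) ^ 2 :=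
      pow_le_pow_of_le_one (by norm_num) (by norm_num) (by omega)
    linarith
  · have h1 : (Fintype.card (Vx J l m) : ℝ) = 2 ^ (L + m) := by
      simp [hL, pow_add, -Fintype.card_sigma]
    have h2 : 4 * (L + m + 3) ≤ 2 * t := by
      have : ((4 * (L + m + 3) : ℕ) : ℝ) ≤ ((2 * t : ℕ) : ℝ) := by
        have : (0 : ℝ) ≤ L + m := by positivity
        push_cast; linarith
      exact_mod_cast this
    have h3 : ((3 : ℝ) / 4) ^ (2 * t) ≤ (1 / 2) ^ (L + m + 3) := by
      refine (pow_le_pow_of_le_one (by norm_num) (by norm_num) h2).trans ?_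
      rw [pow_mul]
      exact pow_le_pow_left₀ (by norm_num) (by norm_num) _
    rw [h1]
    refine (mul_le_mul_of_nonneg_left h3 (by positivity)).trans (le_of_eq ?_)
    rw [pow_add (1 / 2 : ℝ), ← mul_assoc, ← mul_pow]; norm_num
  · intro i hi
    rw [hrho i (by omega), hrho (i + 1) hi]
    have h1 : (l (i + 1) : ℝ) = 256 * l i := by
      simp only [hl]; push_cast; ring
    rw [h1]
    have := mul_pos hM0 (hlR i)
    push_cast
    nlinarith
  · intro i hi
    rw [hrho i hi]
    exact mul_pos (mul_pos (hai i) hM0) (hlR i)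
  · refine ht3.trans ?_
    have h1 : ∑ i ∈ range J, (l i : ℝ) / (30 * (33 * rho l μ i / D)) =
        (∑ i ∈ range J, 1 / ((a + i : ℕ) : ℝ)) / 990 * (D / M) := by
      rw [Finset.sum_div, Finset.sum_mul]
      refine Finset.sum_congr rfl fun i hi => ?_
      rw [hrho i (mem_range.mp hi)]
      have := hai i; have := hlR i
      field_simp
      norm_num
    rw [h1]
    refine mul_le_mul_of_nonneg_right ?_ (by positivity)
    rw [le_div_iff₀ (by norm_num)]; linarith
  · have h1 : ∑ j : Fin J, (33 * rho l μ j / D) / ((l j : ℝ) / 20) ^ 2 ≤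
        13200 * (M / D) * (2 * (1 / 128) ^ a) := by
      refine le_trans ?_ (mul_le_mul_of_nonneg_left
        (geom_le (q := 1 / 128) (by norm_num) (by norm_num) a J) (by positivity))
      rw [Finset.mul_sum]
      refine Finset.sum_le_sum fun j _ => ?_
      rw [hrho j j.2]
      have h2 : 33 * (((a + j : ℕ) : ℝ) * M * l j) / D / ((l j : ℝ) / 20) ^ 2 =
          13200 * (M / D) * (((a + j : ℕ) : ℝ) / l j) := by
        have := hlR j
        field_simp
        ring
      rw [h2]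
      refine mul_le_mul_of_nonneg_left ?_ (by positivity)
      rw [div_le_iff₀ (hlR j)]
      have h3 : ((a + j : ℕ) : ℝ) ≤ 2 ^ (a + j) := by exact_mod_cast Nat.lt_two_pow_self.le
      refine h3.trans (le_of_eq ?_)
      simp only [hl]
      push_cast
      rw [← mul_pow]; norm_num
    have h2 : ((1 : ℝ) / 128) ^ a ≤ 1 / (105600 * (13 * C + 1)) :=
      (pow_le_pow_of_le_one (by norm_num) (by norm_num) (by omega)).trans ha0.le
    calc _ ≤ (13 * C + 1) * (D / M) * (13200 * (M / D) * (2 * (1 / 128) ^ a)) :=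
          mul_le_mul ht3 h1 (Finset.sum_nonneg fun j _ => by
            have := rho_nonneg (l := l) (μ := μ) j; positivity) (by positivity)
      _ = (13 * C + 1) * 26400 * (1 / 128) ^ a := by field_simp; norm_num
      _ ≤ (13 * C + 1) * 26400 * (1 / (105600 * (13 * C + 1))) := by gcongr
      _ = 1 / 4 := by field_simp; norm_num

end Pool.Agent.H93Z.Rob
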