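import Mathlib

/-! Weighted walks on Cayley graphs of elementary abelian 2-groups: a Lyapunov criterion for
slow mixing and the Fourier formula for the simple walk. -/

set_option autoImplicit false
set_option linter.unusedSectionVars false

namespace Pool.Agent.H93Z.Rob

open Finset Matrix

section Gen
variable {V S : Type} [Fintype V] [DecidableEq V]

/-- The lazy walk of a weight function. -/
noncomputable def Pm (w : V → V → ℝ) : Matrix V V ℝ :=
  Matrix.of (fun a b : V => (if a = b then (1:ℝ)/2 else 0) + w a b / (2 * ∑ z : V, w a z))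

/-- `L²` mixing at time `t`. -/
def MixP (w : V → V → ℝ) (t : ℕ) : Prop :=
  ∀ x : V, ∑ y : V, (∑ z : V, w y z) / (∑ a : V, ∑ b : V, w a b) *
    ((Pm w ^ t) x y / ((∑ z : V, w y z) / (∑ a : V, ∑ b : V, w a b)) - 1) ^ 2 ≤ 1/4

lemma Pm_mulVec (w : V → V → ℝ) (f : V → ℝ) (x : V) :
    (Pm w *ᵥ f) x = f x / 2 + (∑ b, w x b * f b) / (2 * ∑ z, w x z) := by
  simp only [Pm, mulVec, dotProduct, of_apply, add_mul, Finset.sum_add_distrib, ite_mul, zero_mul,
    Finset.sum_ite_eq, mem_univ, if_true, Finset.sum_div]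
  congr 1
  · ring
  · exact Finset.sum_congr rfl fun b _ => by ring

lemma Pm_pow_nonneg {w : V → V → ℝ} (hw : ∀ a b, 0 ≤ w a b) (t : ℕ) (a b : V) :
    0 ≤ (Pm w ^ t) a b := by
  induction t generalizing b with
  | zero => rw [pow_zero, Matrix.one_apply]; split_ifs <;> norm_num
  | succ t ih =>
    rw [pow_succ, Matrix.mul_apply]
    refine Finset.sum_nonneg fun c _ => mul_nonneg (ih c) ?_
    have := hw c b
    have h2 : 0 ≤ ∑ z, w c z := Finset.sum_nonneg fun z _ => hw c z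
    simp only [Pm, of_apply]
    split_ifs <;> positivity

lemma Pm_pow_one {w : V → V → ℝ} (hp : ∀ a, 0 < ∑ z, w a z) (t : ℕ) :
    (Pm w ^ t) *ᵥ (fun _ => (1 : ℝ)) = fun _ => 1 := by
  induction t with
  | zero => simp
  | succ t ih =>
    have : Pm w *ᵥ (fun _ => (1 : ℝ)) = fun _ => 1 := by
      funext x
      have := hp x
      rw [Pm_mulVec]
      simp only [mul_one]
      field_simp
      norm_num
    rw [pow_succ, ← mulVec_mulVec, this, ih]

lemma not_mix {w : V → V → ℝ} (hw : ∀ a b, 0 ≤ w a b) (hp : ∀ a, 0 < ∑ z, w a z)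
    (F : ℕ → V → ℝ) {ε : ℝ} (hF : ∀ t x, (Pm w *ᵥ F (t + 1)) x ≤ F t x + ε) (x0 : V)
    (h0 : F 0 x0 = 0) {t : ℕ} (ht : t * ε ≤ 1 / 4) (A : Finset V) (hF0 : ∀ y, 0 ≤ F t y)
    (hA : ∀ y, y ∉ A → 1 ≤ F t y)
    (hπ : ∑ y ∈ A, (∑ z : V, w y z) / (∑ a : V, ∑ b : V, w a b) ≤ 1 / 4) : ¬ MixP w t := by
  intro hm
  have hrow : ∀ t, ∑ y, (Pm w ^ t) x0 y = 1 := fun t => by
    simpa [mulVec, dotProduct] using congrFun (Pm_pow_one hp t) x0
  have h1 : ∀ t : ℕ, ((Pm w ^ t) *ᵥ F t) x0 ≤ t * ε := by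
    intro t
    induction t with
    | zero => simp [h0]
    | succ t ih =>
      rw [pow_succ, ← mulVec_mulVec]
      have h2 : ((Pm w ^ t) *ᵥ Pm w *ᵥ F (t + 1)) x0 ≤ ∑ y, (Pm w ^ t) x0 y * (F t y + ε) :=
        Finset.sum_le_sum fun y _ => mul_le_mul_of_nonneg_left (hF t y) (Pm_pow_nonneg hw t _ _)
      simp only [mul_add, Finset.sum_add_distrib, ← Finset.sum_mul, hrow] at h2
      have h3 : ∑ y, (Pm w ^ t) x0 y * F t y = ((Pm w ^ t) *ᵥ F t) x0 := rfl
      push_cast
      linarith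
  have h2 : ∑ y ∈ Aᶜ, (Pm w ^ t) x0 y ≤ 1 / 4 := by
    refine le_trans ?_ ((h1 t).trans ht)
    calc ∑ y ∈ Aᶜ, (Pm w ^ t) x0 y ≤ ∑ y ∈ Aᶜ, (Pm w ^ t) x0 y * F t y :=
          Finset.sum_le_sum fun y hy =>
            le_mul_of_one_le_right (Pm_pow_nonneg hw t _ _) (hA y (mem_compl.mp hy))
      _ ≤ ∑ y, (Pm w ^ t) x0 y * F t y :=
          Finset.sum_le_sum_of_subset_of_nonneg (subset_univ _)
            fun y _ _ => mul_nonneg (Pm_pow_nonneg hw t _ _) (hF0 y)
  have h3 := Finset.sum_add_sum_compl A (fun y => (Pm w ^ t) x0 y)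
  rw [hrow] at h3
  have htot : 0 < ∑ a : V, ∑ b : V, w a b := Finset.sum_pos (fun a _ => hp a) ⟨x0, mem_univ _⟩
  set π : V → ℝ := fun y => (∑ z : V, w y z) / (∑ a : V, ∑ b : V, w a b) with hπdef
  have hπ0 : ∀ y, 0 < π y := fun y => div_pos (hp y) htot
  have h4 : ∀ y, (Pm w ^ t) x0 y ≤ π y * ((Pm w ^ t) x0 y / π y - 1) ^ 2 + 5 / 4 * π y := by
    intro y
    have h5 : (Pm w ^ t) x0 y = π y * ((Pm w ^ t) x0 y / π y) := by
      have := hπ0 y; field_simp
    set u := (Pm w ^ t) x0 y / π y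
    rw [h5]
    nlinarith [mul_nonneg (hπ0 y).le (sq_nonneg (u - 3 / 2))]
  have h5 := Finset.sum_le_sum fun y (_ : y ∈ A) => h4 y
  rw [Finset.sum_add_distrib, ← Finset.mul_sum] at h5
  have h6 : ∑ y ∈ A, π y * ((Pm w ^ t) x0 y / π y - 1) ^ 2 ≤ 1 / 4 :=
    (Finset.sum_le_sum_of_subset_of_nonneg (subset_univ _)
      fun y _ _ => mul_nonneg (hπ0 y).le (sq_nonneg _)).trans (hm x0)
  linarith

variable [AddCommGroup V] [Fintype S]

/-- Edge weights given by weights on generators. -/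
noncomputable def Wm (gen : S → V) (wt : V → S → ℝ) (a b : V) : ℝ :=
  ∑ s, if b = a + gen s then wt a s else 0

lemma sum_Wm (gen : S → V) (wt : V → S → ℝ) (f : V → ℝ) (a : V) :
    ∑ b, Wm gen wt a b * f b = ∑ s, wt a s * f (a + gen s) := by
  simp only [Wm, Finset.sum_mul]
  rw [Finset.sum_comm]
  simp

lemma sum_Wm' (gen : S → V) (wt : V → S → ℝ) (a : V) : ∑ b, Wm gen wt a b = ∑ s, wt a s := by
  simpa using sum_Wm gen wt (fun _ => 1) a

lemma Wm_adj {gen : S → V} (hg : Function.Injective gen) (wt : V → S → ℝ) (a : V) (s : S) :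
    Wm gen wt a (a + gen s) = wt a s := by
  unfold Wm
  rw [Finset.sum_eq_single s]
  · simp
  · intro s' _ h
    rw [if_neg]
    intro e
    exact h (hg (add_left_cancel e)).symm
  · simp

lemma Wm_nadj (gen : S → V) (wt : V → S → ℝ) {a b : V} (h : ¬ ∃ s, b = a + gen s) :
    Wm gen wt a b = 0 :=
  Finset.sum_eq_zero fun s _ => if_neg fun e => h ⟨s, e⟩

lemma Wm_symm (h2 : ∀ x : V, x + x = 0) (gen : S → V) {wt : V → S → ℝ}
    (hs : ∀ x s, wt (x + gen s) s = wt x s) (a b : V) : Wm gen wt a b = Wm gen wt b a := by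
  refine Finset.sum_congr rfl fun s _ => ?_
  by_cases h : b = a + gen s
  · rw [if_pos h, if_pos (by rw [h, add_assoc, h2, add_zero]), h, hs]
  · rw [if_neg h, if_neg fun e => h (by rw [e, add_assoc, h2, add_zero])]

/-- The Cayley graph. -/
def cay (h2 : ∀ x : V, x + x = 0) (gen : S → V) (h0 : ∀ s, gen s ≠ 0) : SimpleGraph V where
  Adj a b := ∃ s, b = a + gen s
  symm := ⟨fun a b ⟨s, h⟩ => ⟨s, by rw [h, add_assoc, h2, add_zero]⟩⟩
  loopless := ⟨fun a ⟨s, h⟩ => h0 s (by simpa using h.symm)⟩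

lemma cay_trans (h2 : ∀ x : V, x + x = 0) (gen : S → V) (h0 : ∀ s, gen s ≠ 0) (x y : V) :
    ∃ φ : cay h2 gen h0 ≃g cay h2 gen h0, φ x = y := by
  refine ⟨⟨Equiv.addLeft (y - x), ?_⟩, sub_add_cancel y x⟩
  intro a b
  simp only [cay, Equiv.coe_addLeft, add_assoc, add_right_inj]

lemma cay_conn (h2 : ∀ x : V, x + x = 0) (gen : S → V) (h0 : ∀ s, gen s ≠ 0)
    (hgen : ∀ p : V → Prop, p 0 → (∀ x y, p x → p y → p (x + y)) → (∀ s, p (gen s)) → ∀ x, p x) :
    (cay h2 gen h0).Connected := by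
  have h := hgen (fun x => ∀ a, (cay h2 gen h0).Reachable a (a + x)) (fun a => by simp)
    (fun x y hx hy a => by rw [← add_assoc]; exact (hx a).trans (hy _))
    (fun s a => SimpleGraph.Adj.reachable ⟨s, rfl⟩)
  have : Nonempty V := ⟨0⟩
  exact ⟨fun a b => by simpa using h (b - a) a⟩

/-- The Fourier bound for the simple walk. -/
lemma mix_fourier [Nonempty S] (gen : S → V) (ch : V → V → ℝ) (h2 : ∀ x : V, x + x = 0)
    (hadd : ∀ a x y, ch a (x + y) = ch a x * ch a y) (hsym : ∀ a x, ch a x = ch x a)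
    (hsum : ∀ x, ∑ a, ch a x = if x = 0 then (Fintype.card V : ℝ) else 0) {t : ℕ}
    (h : ∑ a ∈ univ.erase 0, (1 / 2 + (∑ s, ch a (gen s)) / (2 * Fintype.card S)) ^ (2 * t)
      ≤ 1 / 4) : MixP (Wm gen fun _ _ => 1) t := by
  intro x
  have hN : (0 : ℝ) < Fintype.card V := by
    have : Nonempty V := ⟨0⟩
    exact_mod_cast Fintype.card_pos
  have hD : (0 : ℝ) < Fintype.card S := by exact_mod_cast Fintype.card_pos
  set N : ℝ := (Fintype.card V : ℝ) with hNdef
  set lam : V → ℝ := fun a => 1 / 2 + (∑ s, ch a (gen s)) / (2 * Fintype.card S) with hlam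
  have hrow : ∀ y, ∑ z, Wm gen (fun _ _ => 1) y z = Fintype.card S := fun y => by
    rw [sum_Wm']; simp
  have hπ : ∀ y, (∑ z, Wm gen (fun _ _ => 1) y z) /
      (∑ a : V, ∑ b : V, Wm gen (fun _ _ => 1) a b) = 1 / N := fun y => by
    simp only [hrow, Finset.sum_const, Finset.card_univ, nsmul_eq_mul]
    field_simp
    rfl
  have heig : ∀ a, Pm (Wm gen fun _ _ => 1) *ᵥ ch a = lam a • ch a := by
    intro a
    funext y
    rw [Pm_mulVec, sum_Wm, hrow]
    simp only [hadd, one_mul, ← Finset.mul_sum, Pi.smul_apply, smul_eq_mul, hlam]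
    ring
  have hpow : ∀ a (t : ℕ), (Pm (Wm gen fun _ _ => 1) ^ t) *ᵥ ch a = lam a ^ t • ch a := by
    intro a t
    induction t with
    | zero => simp
    | succ t ih => rw [pow_succ, ← mulVec_mulVec, heig, mulVec_smul, ih, smul_smul, pow_succ']
  have hzero : ∀ x y : V, x + y = 0 ↔ x = y := fun x y =>
    ⟨fun e => by rw [← add_zero x, ← h2 y, ← add_assoc, e, zero_add], fun e => by rw [e, h2]⟩
  have horth : ∀ x y, ∑ a, ch a x * ch a y = if x = y then N else 0 := fun x y => by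
    simp only [← hadd, hsum, hzero]
  have hc0 : ∀ a, ch a 0 = 1 := by
    intro a
    have h3 : ∀ b, ch b 0 * (1 - ch b 0) = 0 := fun b => by
      have := hadd b 0 0; rw [add_zero] at this; linarith
    have h4 : ∑ b, (1 - ch b 0) = 0 := by
      rw [Finset.sum_sub_distrib, hsum]; simp [hNdef]
    have h5 : ∀ b ∈ univ, 0 ≤ 1 - ch b 0 := fun b _ => by
      rcases mul_eq_zero.mp (h3 b) with h | h <;> linarith
    have := (Finset.sum_eq_zero_iff_of_nonneg h5).mp h4 a (mem_univ a)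
    linarith
  have hker : ∀ y, (Pm (Wm gen fun _ _ => 1) ^ t) x y / (1 / N) - 1 =
      ∑ a ∈ univ.erase 0, lam a ^ t * ch a x * ch a y := by
    intro y
    have h3 : ∑ a, lam a ^ t * ch a x * ch a y = N * (Pm (Wm gen fun _ _ => 1) ^ t) x y := by
      have h4 : ∀ a, lam a ^ t * ch a x = ∑ z, (Pm (Wm gen fun _ _ => 1) ^ t) x z * ch a z :=
        fun a => (congrFun (hpow a t) x).symm
      simp only [h4, Finset.sum_mul, mul_assoc]
      rw [Finset.sum_comm]
      simp only [← Finset.mul_sum, horth]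
      simp [mul_comm]
    rw [← Finset.add_sum_erase _ _ (mem_univ 0)] at h3
    have h4 : lam 0 = 1 := by
      simp only [hlam, hsym 0, hc0, Finset.sum_const, Finset.card_univ, nsmul_eq_mul]
      field_simp
      norm_num
    rw [h4, hsym 0, hsym 0, hc0, hc0, one_pow] at h3
    field_simp
    linarith
  simp only [hπ, hker, ← Finset.mul_sum]
  have h5 : ∑ y, (∑ a ∈ univ.erase 0, lam a ^ t * ch a x * ch a y) ^ 2 =
      N * ∑ a ∈ univ.erase 0, lam a ^ (2 * t) := by
    simp only [sq, Finset.sum_mul_sum]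
    rw [Finset.sum_comm, Finset.mul_sum]
    refine Finset.sum_congr rfl fun a ha => ?_
    rw [Finset.sum_comm]
    have h6 : ∀ b, ∑ y, lam a ^ t * ch a x * ch a y * (lam b ^ t * ch b x * ch b y) =
        lam a ^ t * ch a x * (lam b ^ t * ch b x) * if a = b then N else 0 := by
      intro b
      rw [← horth, Finset.mul_sum]
      exact Finset.sum_congr rfl fun y _ => by rw [hsym y, hsym y]; ring
    simp only [h6, mul_ite, mul_zero, Finset.sum_ite_eq, ha, if_true]
    have h7 : ch a x * ch a x = 1 := by rw [← hadd, h2, hc0]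
    rw [two_mul, pow_add]
    linear_combination (lam a ^ t * lam a ^ t * N) * h7
  rw [h5, ← mul_assoc, one_div_mul_cancel hN.ne', one_mul]
  exact h

end Gen

section Chi

lemma zmod2_cases (b : ZMod 2) : b = 0 ∨ b = 1 := by revert b; decide

lemma zmod2_add : (1 : ZMod 2) + 1 = 0 := by decide

/-- The sign character of `ZMod 2`. -/
def sgn (b : ZMod 2) : ℝ := if b = 0 then 1 else -1

@[simp] lemma sgn_zero : sgn 0 = 1 := by simp [sgn]
@[simp] lemma sgn_one : sgn 1 = -1 := by simp [sgn]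

lemma sgn_add (a b : ZMod 2) : sgn (a + b) = sgn a * sgn b := by
  rcases zmod2_cases a with rfl | rfl <;> rcases zmod2_cases b with rfl | rfl <;>
    simp [zmod2_add]

lemma abs_sgn (a : ZMod 2) : |sgn a| = 1 := by
  rcases zmod2_cases a with rfl | rfl <;> simp

lemma sum_zmod2 (f : ZMod 2 → ℝ) : ∑ b, f b = f 0 + f 1 := Fin.sum_univ_two f

variable {κ : Type} [Fintype κ] [DecidableEq κ]

lemma pi_add_self (x : κ → ZMod 2) : x + x = 0 := by
  funext c
  rcases zmod2_cases (x c) with h | h <;> simp [h, zmod2_add]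

/-- Characters of the cube. -/
def chi (a x : κ → ZMod 2) : ℝ := ∏ c, sgn (a c * x c)

lemma chi_add (a x y : κ → ZMod 2) : chi a (x + y) = chi a x * chi a y := by
  simp [chi, mul_add, sgn_add, Finset.prod_mul_distrib]

lemma chi_symm (a x : κ → ZMod 2) : chi a x = chi x a := by simp [chi, mul_comm]

@[simp] lemma chi_zero (a : κ → ZMod 2) : chi a 0 = 1 := by simp [chi]

lemma abs_chi (a x : κ → ZMod 2) : |chi a x| = 1 := by
  simp [chi, Finset.abs_prod, abs_sgn]

lemma sum_chi (x : κ → ZMod 2) :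
    ∑ a, chi a x = if x = 0 then (Fintype.card (κ → ZMod 2) : ℝ) else 0 := by
  split_ifs with h
  · simp [h]
  · unfold chi
    rw [← Fintype.piFinset_univ, ← Finset.prod_univ_sum (fun _ => univ) (fun c b => sgn (b * x c))]
    obtain ⟨c, hc⟩ := Function.ne_iff.mp h
    refine Finset.prod_eq_zero (mem_univ c) ?_
    rw [sum_zmod2, (zmod2_cases (x c)).resolve_left hc]; simp

end Chi

end Pool.Agent.H93Z.Rob
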