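import Pool.Agent.H93Z.Rob.Gen

/-! A cascade of hypercube levels: the perturbed walk thaws one level after another. -/

set_option autoImplicit false
set_option linter.unusedSectionVars false

namespace Pool.Agent.H93Z.Rob

open Finset Matrix

/-- Coordinates: level `i` has `l i` of them. -/
abbrev Co (J : ℕ) (l : ℕ → ℕ) : Type := Σ i : Fin J, Fin (l i)

/-- Indices of the main generators. -/
abbrev Ix (J : ℕ) (l μ : ℕ → ℕ) : Type :=
  Σ i : Fin J, Fin (l (i + 1)) × Fin (l (i + 1)) × Fin (l i) × Fin (μ i)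

variable {J m : ℕ} {l μ : ℕ → ℕ}

/-- Unit vector of a coordinate (zero above the top level). -/
def E (J : ℕ) (i : ℕ) (u : Fin (l i)) : Co J l → ZMod 2 :=
  fun c => if (c.1 : ℕ) = i ∧ (c.2 : ℕ) = u then 1 else 0

/-- The value at a coordinate (zero above the top level). -/
def bit (x : Co J l → ZMod 2) (i : ℕ) (u : Fin (l i)) : ZMod 2 :=
  if h : i < J then x ⟨⟨i, h⟩, u⟩ else 0

lemma bit_add (x y : Co J l → ZMod 2) (i : ℕ) (u : Fin (l i)) :
    bit (x + y) i u = bit x i u + bit y i u := by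
  unfold bit; split_ifs <;> simp

lemma bit_E (j : ℕ) (v : Fin (l j)) (i : ℕ) (u : Fin (l i)) :
    bit (E J j v) i u = if i < J ∧ i = j ∧ (u : ℕ) = v then 1 else 0 := by
  unfold bit E
  by_cases h : i < J <;> simp [h]

lemma chi_E (a : Co J l → ZMod 2) (i : ℕ) (u : Fin (l i)) : chi a (E J i u) = sgn (bit a i u) := by
  unfold chi bit
  split_ifs with h
  · rw [Finset.prod_eq_single ⟨⟨i, h⟩, u⟩]
    · simp [E]
    · rintro ⟨⟨i', h'⟩, u'⟩ _ hne
      have : ¬ (i' = i ∧ (u' : ℕ) = u) := by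
        rintro ⟨rfl, h2⟩
        exact hne (by rw [Fin.ext h2])
      simp [E, this]
    · simp
  · refine (Finset.prod_eq_one fun c _ => ?_).trans sgn_zero.symm
    have : (c.1 : ℕ) ≠ i := fun e => h (e ▸ c.1.2)
    simp [E, this]

/-- The cube part of a main generator. -/
def gx (q : Ix J l μ) : Co J l → ZMod 2 :=
  E J q.1 q.2.2.2.1 + E J (q.1 + 1) q.2.1 + E J (q.1 + 1) q.2.2.1

/-- The number of ones on level `i`. -/
noncomputable def cnt (x : Co J l → ZMod 2) (i : ℕ) : ℝ :=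
  ∑ u : Fin (l i), (1 - sgn (bit x i u)) / 2

lemma cnt_flip (x : Co J l → ZMod 2) (j : ℕ) (v : Fin (l j)) (i : ℕ) :
    cnt (x + E J j v) i = cnt x i + if i < J ∧ i = j then sgn (bit x j v) else 0 := by
  unfold cnt
  simp only [bit_add, bit_E]
  by_cases h : i < J ∧ i = j
  · obtain ⟨h1, rfl⟩ := h
    have e : ∀ u : Fin (l i), (1 - sgn (bit x i u + if i < J ∧ i = i ∧ (u : ℕ) = v then 1 else 0))
        / 2 = (1 - sgn (bit x i u)) / 2 + if u = v then sgn (bit x i v) else 0 := by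
      intro u
      by_cases hu : u = v
      · subst hu; simp [h1, sgn_add]; ring
      · simp [hu, Fin.val_inj]
    rw [Finset.sum_congr rfl fun u _ => e u, Finset.sum_add_distrib]
    simp [h1]
  · have e : ∀ u : Fin (l i), ¬ (i < J ∧ i = j ∧ (u : ℕ) = v) := fun u h' => h ⟨h'.1, h'.2.1⟩
    simp [e, h]

lemma sgn_cases (b : ZMod 2) : sgn b = 1 ∨ sgn b = -1 := by
  rcases zmod2_cases b with rfl | rfl <;> simp

lemma cnt_nonneg (x : Co J l → ZMod 2) (i : ℕ) : 0 ≤ cnt x i :=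
  Finset.sum_nonneg fun u _ => by rcases sgn_cases (bit x i u) with h | h <;> rw [h] <;> norm_num

lemma cnt_le (x : Co J l → ZMod 2) (i : ℕ) : cnt x i ≤ l i := by
  have : cnt x i ≤ ∑ _u : Fin (l i), (1 : ℝ) := Finset.sum_le_sum fun u _ => by
    rcases sgn_cases (bit x i u) with h | h <;> rw [h] <;> norm_num
  simpa using this

lemma sum_sgn (x : Co J l → ZMod 2) (i : ℕ) :
    ∑ u : Fin (l i), sgn (bit x i u) = l i - 2 * cnt x i := by
  unfold cnt
  rw [← Finset.sum_div, Finset.sum_sub_distrib]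
  simp only [Finset.sum_const, Finset.card_univ, Fintype.card_fin, nsmul_eq_mul]
  ring

lemma d_self (x : Co J l → ZMod 2) (q : Ix J l μ) :
    cnt (x + gx q) q.1 - cnt x q.1 = sgn (bit x q.1 q.2.2.2.1) := by
  simp [gx, ← add_assoc, cnt_flip]

lemma d_zero (x : Co J l → ZMod 2) (q : Ix J l μ) {j : ℕ} (h1 : j ≠ q.1) (h2 : j ≠ q.1 + 1) :
    cnt (x + gx q) j - cnt x j = 0 := by
  simp [gx, ← add_assoc, cnt_flip, h1, h2]

lemma d_abs (x : Co J l → ZMod 2) (q : Ix J l μ) {j : ℕ} (h1 : j ≠ q.1) :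
    |cnt (x + gx q) j - cnt x j| ≤ 2 := by
  simp only [gx, ← add_assoc, cnt_flip, h1, and_false, if_false, add_zero]
  split_ifs
  · rw [add_assoc, add_sub_cancel_left]
    refine (abs_add_le _ _).trans ?_
    rw [abs_sgn, abs_sgn]; norm_num
  · simp

/-- The perturbed weight of a main generator. -/
def wq (x : Co J l → ZMod 2) (i : ℕ) (u u' : Fin (l (i + 1))) (v : Fin (l i)) : ℝ :=
  if i + 1 < J ∧ u ≠ u' ∧ bit x (i + 1) u = bit x (i + 1) u' ∧ bit x (i + 1) u ≠ bit x i v
  then 64 else 1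

lemma wq_ge (x : Co J l → ZMod 2) (i : ℕ) (u u' : Fin (l (i + 1))) (v : Fin (l i)) :
    1 ≤ wq x i u u' v := by unfold wq; split_ifs <;> norm_num

lemma wq_le (x : Co J l → ZMod 2) (i : ℕ) (u u' : Fin (l (i + 1))) (v : Fin (l i)) :
    wq x i u u' v ≤ 64 := by unfold wq; split_ifs <;> norm_num

lemma bit_gx (q : Ix J l μ) : bit (gx q) q.1 q.2.2.2.1 = 1 := by
  simp [gx, bit_add, bit_E]

lemma wq_symm (x : Co J l → ZMod 2) (q : Ix J l μ) :
    wq (x + gx q) q.1 q.2.1 q.2.2.1 q.2.2.2.1 = wq x q.1 q.2.1 q.2.2.1 q.2.2.2.1 := by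
  unfold wq
  refine if_congr (and_congr_right fun h1 => and_congr_right fun h2 => ?_) rfl rfl
  have e1 : bit (gx q) (q.1 + 1) q.2.1 = 1 := by simp [gx, bit_add, bit_E, h1, h2, Fin.val_inj]
  have e2 : bit (gx q) (q.1 + 1) q.2.2.1 = 1 := by
    simp [gx, bit_add, bit_E, h1, h2.symm, Fin.val_inj]
  simp [bit_add, e1, e2, bit_gx]

/-- Vertices. -/
abbrev Vx (J : ℕ) (l : ℕ → ℕ) (m : ℕ) : Type := (Co J l → ZMod 2) × (Fin m → ZMod 2)

/-- All generator indices. -/
abbrev Sx (J : ℕ) (l μ : ℕ → ℕ) (m : ℕ) : Type := Ix J l μ ⊕ {z : Fin m → ZMod 2 // z ≠ 0}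

/-- The generators. -/
def gen (lab : Ix J l μ → Fin m → ZMod 2) : Sx J l μ m → Vx J l m
  | Sum.inl q => (gx q, lab q)
  | Sum.inr z => (0, z.1)

/-- The perturbed weights. -/
def wt (x : Vx J l m) : Sx J l μ m → ℝ
  | Sum.inl q => wq x.1 q.1 q.2.1 q.2.2.1 q.2.2.2.1
  | Sum.inr _ => 1

lemma wt_ge (x : Vx J l m) (s : Sx J l μ m) : 1 ≤ wt x s := by
  cases s
  · exact wq_ge _ _ _ _ _
  · exact le_rfl

lemma wt_le (x : Vx J l m) (s : Sx J l μ m) : wt x s ≤ 64 := by
  cases s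
  · exact wq_le _ _ _ _ _
  · show (1 : ℝ) ≤ 64; norm_num

lemma wt_symm (lab : Ix J l μ → Fin m → ZMod 2) (x : Vx J l m) (s : Sx J l μ m) :
    wt (x + gen lab s) s = wt x s := by
  cases s
  · exact wq_symm _ _
  · rfl

lemma gx_ne (q : Ix J l μ) : gx q ≠ 0 := by
  intro h
  have := bit_gx q
  rw [h] at this
  simp [bit] at this

lemma gen_ne (lab : Ix J l μ → Fin m → ZMod 2) (s : Sx J l μ m) : gen lab s ≠ 0 := by
  rcases s with q | z
  · exact fun h => gx_ne q (congrArg Prod.fst h)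
  · exact fun h => z.2 (congrArg Prod.snd h)

lemma gen_inj {lab : Ix J l μ → Fin m → ZMod 2} (h : Function.Injective lab) :
    Function.Injective (gen lab) := by
  rintro (q | z) (q' | z') e
  · rw [h (congrArg Prod.snd e)]
  · exact absurd (congrArg Prod.fst e) (gx_ne q)
  · exact absurd (congrArg Prod.fst e).symm (gx_ne q')
  · rw [Subtype.ext (congrArg Prod.snd e)]

lemma vx_add_self (x : Vx J l m) : x + x = 0 := Prod.ext (pi_add_self _) (pi_add_self _)

/-- Number of generators of level `i`. -/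
noncomputable def rho (l μ : ℕ → ℕ) (i : ℕ) : ℝ := (μ i : ℝ) * (l (i + 1)) ^ 2 * l i

lemma rho_nonneg (i : ℕ) : 0 ≤ rho l μ i := by unfold rho; positivity

lemma sum_phi (lab : Ix J l μ → Fin m → ZMod 2)
    (hr : ∀ i, i + 1 < J → 256 * rho l μ i ≤ rho l μ (i + 1)) (x : Vx J l m) (j : Fin J)
    (φ : ℝ → ℝ) (h0 : φ 0 = 0) (h4 : ∀ d, |d| ≤ 2 → φ d ≤ 4) :
    ∑ s, wt x s * φ (cnt (x + gen lab s).1 j - cnt x.1 j) ≤
      μ j * ∑ u, ∑ u', ∑ v, wq x.1 j u u' v * φ (sgn (bit x.1 j v)) + rho l μ j := by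
  rw [Fintype.sum_sum_type]
  simp only [gen, wt, Prod.fst_add, add_zero, sub_self, h0, mul_zero, Finset.sum_const_zero]
  rw [Fintype.sum_sigma, ← Finset.add_sum_erase _ _ (mem_univ j)]
  refine add_le_add (le_of_eq ?_) ?_
  · simp only [Fintype.sum_prod_type]
    simp only [Finset.mul_sum]
    refine Finset.sum_congr rfl fun u _ => Finset.sum_congr rfl fun u' _ =>
      Finset.sum_congr rfl fun v _ => ?_
    rw [Finset.sum_congr rfl fun k _ => by rw [d_self x.1 ⟨j, u, u', v, k⟩]]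
    simp
  · have h1 : ∀ i ∈ univ.erase j,
        ∑ y : Fin (l (i + 1)) × Fin (l (i + 1)) × Fin (l i) × Fin (μ i),
          wq x.1 i y.1 y.2.1 y.2.2.1 * φ (cnt (x.1 + gx ⟨i, y⟩) j - cnt x.1 j) ≤
          if (i : ℕ) + 1 = j then rho l μ j else 0 := by
      intro i hi
      have hij : (j : ℕ) ≠ i := fun e => ne_of_mem_erase hi (Fin.ext e.symm)
      split_ifs with h
      · have h2 := hr i (h ▸ j.2)
        rw [h] at h2
        refine le_trans (Finset.sum_le_sum (g := fun _ => (256 : ℝ)) fun y _ => ?_)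
          (le_trans (le_of_eq ?_) h2)
        · have h5 := h4 _ (d_abs x.1 ⟨i, y⟩ hij)
          have h6 := wq_ge x.1 i y.1 y.2.1 y.2.2.1
          have h7 := wq_le x.1 i y.1 y.2.1 y.2.2.1
          nlinarith
        · simp [rho]; ring
      · exact le_of_eq (Finset.sum_eq_zero fun y _ => by
          rw [d_zero x.1 ⟨i, y⟩ hij fun e => h e.symm, h0, mul_zero])
    refine (Finset.sum_le_sum h1).trans ?_
    rw [← Finset.sum_filter, Finset.sum_const, nsmul_eq_mul]
    refine mul_le_of_le_one_left (rho_nonneg _) ?_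
    have : ((univ.erase j).filter fun i : Fin J => (i : ℕ) + 1 = j).card ≤ 1 :=
      Finset.card_le_one.mpr fun a ha b hb => Fin.ext (by
        have := (mem_filter.mp ha).2; have := (mem_filter.mp hb).2; omega)
    exact_mod_cast this

lemma sum_crude (lab : Ix J l μ → Fin m → ZMod 2)
    (hr : ∀ i, i + 1 < J → 256 * rho l μ i ≤ rho l μ (i + 1)) (x : Vx J l m) (j : Fin J)
    (φ : ℝ → ℝ) (h0 : φ 0 = 0) (h4 : ∀ d, |d| ≤ 2 → φ d ≤ 4) (h1 : φ 1 ≤ 1) (h1' : φ (-1) ≤ 1) :
    ∑ s, wt x s * φ (cnt (x + gen lab s).1 j - cnt x.1 j) ≤ 65 * rho l μ j := by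
  refine (sum_phi lab hr x j φ h0 h4).trans ?_
  have h : ∑ u, ∑ u', ∑ v, wq x.1 j u u' v * φ (sgn (bit x.1 j v)) ≤
      ∑ _u : Fin (l (j + 1)), ∑ _u' : Fin (l (j + 1)), ∑ _v : Fin (l j), (64 : ℝ) := by
    refine Finset.sum_le_sum fun u _ => Finset.sum_le_sum fun u' _ => Finset.sum_le_sum fun v _ => ?_
    have h6 := wq_ge x.1 j u u' v
    have h7 := wq_le x.1 j u u' v
    rcases sgn_cases (bit x.1 j v) with h | h <;> rw [h] <;> nlinarith
  simp only [Finset.sum_const, Finset.card_univ, Fintype.card_fin, nsmul_eq_mul] at h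
  have h2 := mul_le_mul_of_nonneg_left h (Nat.cast_nonneg (α := ℝ) (μ j))
  unfold rho
  linarith

lemma sum_drift (lab : Ix J l μ → Fin m → ZMod 2)
    (hr : ∀ i, i + 1 < J → 256 * rho l μ i ≤ rho l μ (i + 1)) (x : Vx J l m) (j : Fin J)
    (hj : (j : ℕ) + 1 < J) (hl : 256 ≤ l (j + 1)) (ho : cnt x.1 (j + 1) ≤ l (j + 1) / 4)
    (hn : (l j : ℝ) / 6 ≤ cnt x.1 j) :
    ∑ s, wt x s * (cnt (x + gen lab s).1 j - cnt x.1 j) ≤ 0 := by
  refine (sum_phi lab hr x j id rfl fun d hd => by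
    have := le_abs_self d; simp only [id]; linarith).trans ?_
  set p : Fin (l (j + 1)) → ℝ := fun u => (1 - sgn (bit x.1 (j + 1) u)) / 2 with hp
  set q : Fin (l j) → ℝ := fun v => (1 - sgn (bit x.1 j v)) / 2 with hq
  have h : ∑ u, ∑ u', ∑ v, wq x.1 j u u' v * id (sgn (bit x.1 j v)) ≤
      ∑ u, ∑ u', ∑ v, ((1 - 2 * q v) + 63 * (p u * (p u' * (1 - q v)) -
        (1 - p u) * ((1 - p u') * q v) + (if u = u' then q v else 0))) := by
    refine Finset.sum_le_sum fun u _ => Finset.sum_le_sum fun u' _ => Finset.sum_le_sum fun v _ => ?_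
    simp only [wq, hp, hq, id, hj, true_and]
    by_cases huu : u = u'
    · subst huu
      rcases zmod2_cases (bit x.1 (j + 1) u) with h1 | h1 <;>
        rcases zmod2_cases (bit x.1 j v) with h3 | h3 <;> simp [h1, h3] <;> norm_num
    · rcases zmod2_cases (bit x.1 (j + 1) u) with h1 | h1 <;>
        rcases zmod2_cases (bit x.1 (j + 1) u') with h2 | h2 <;>
        rcases zmod2_cases (bit x.1 j v) with h3 | h3 <;> simp [h1, h2, h3, huu] <;> norm_num
  have hps : ∑ u, p u = cnt x.1 (j + 1) := rfl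
  have hqs : ∑ v, q v = cnt x.1 j := rfl
  simp only [Finset.sum_add_distrib, Finset.sum_sub_distrib, ← Finset.mul_sum, ← Finset.sum_mul,
    Finset.sum_const, Finset.card_univ, Fintype.card_fin, nsmul_eq_mul, hps, hqs,
    Finset.sum_ite_irrel, Finset.sum_ite_eq, mem_univ, if_true, mul_one, mul_zero] at h
  have h2 := mul_le_mul_of_nonneg_left h (Nat.cast_nonneg (α := ℝ) (μ j))
  refine (add_le_add h2 le_rfl).trans ?_
  unfold rho
  have hL : (256 : ℝ) ≤ l (j + 1) := by exact_mod_cast hl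
  have ho0 := cnt_nonneg x.1 (j + 1)
  have hn1 := cnt_le x.1 j
  set L : ℝ := (l (j + 1) : ℝ)
  set o := cnt x.1 (j + 1)
  set n := cnt x.1 j
  set k : ℝ := (l j : ℝ)
  have hn0 : 0 ≤ n := cnt_nonneg x.1 j
  have a1 : o * (o * (k - n)) ≤ L / 4 * (L / 4 * (5 * k / 6)) := by gcongr; linarith
  have a2 : 3 * L / 4 * (3 * L / 4 * n) ≤ (L - o) * ((L - o) * n) := by gcongr <;> linarith
  have a3 : L * n ≤ L / 256 * L * n := by
    have : 1 ≤ L / 256 := by linarith
    nlinarith [mul_nonneg (show 0 ≤ L by linarith) hn0]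
  have a4 : L * L * (k / 6) ≤ L * L * n := by gcongr
  have a5 : L * (L * (k - 2 * n)) + 63 * (o * (o * (k - n)) - (L - o) * ((L - o) * n) + L * n)
      + L ^ 2 * k ≤ 0 := by
    have hk : 0 ≤ L * L * k := by positivity
    nlinarith
  have := mul_le_mul_of_nonneg_left a5 (Nat.cast_nonneg (α := ℝ) (μ j))
  linarith

lemma sum_wt_ge (x : Vx J l m) : (Fintype.card (Sx J l μ m) : ℝ) ≤ ∑ s : Sx J l μ m, wt x s := by
  have := Finset.sum_le_sum fun s (_ : s ∈ (univ : Finset (Sx J l μ m))) => wt_ge x s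
  simpa using this

lemma sum_wt_le (x : Vx J l m) :
    ∑ s : Sx J l μ m, wt x s ≤ 64 * (Fintype.card (Sx J l μ m) : ℝ) := by
  have := Finset.sum_le_sum fun s (_ : s ∈ (univ : Finset (Sx J l μ m))) => wt_le x s
  simpa [mul_comm] using this

lemma step (lab : Ix J l μ → Fin m → ZMod 2)
    (hr : ∀ i, i + 1 < J → 256 * rho l μ i ≤ rho l μ (i + 1))
    (hD : (0 : ℝ) < Fintype.card (Sx J l μ m)) (x : Vx J l m) (j : Fin J) {b b' v : ℝ}
    (hv : v = 33 * rho l μ j / Fintype.card (Sx J l μ m))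
    (h : b' = b + v ∨ (b ≤ b' ∧ (b' < cnt x.1 j →
      ∑ s, wt x s * (cnt (x + gen lab s).1 j - cnt x.1 j) ≤ 0))) :
    (Pm (Wm (gen lab) wt) *ᵥ fun y => max (cnt y.1 j - b') 0 ^ 2) x ≤
      max (cnt x.1 j - b) 0 ^ 2 + v := by
  rw [Pm_mulVec, sum_Wm, sum_Wm']
  have hw := sum_wt_ge (μ := μ) x
  set w := ∑ s : Sx J l μ m, wt x s with hwdef
  set y := max (cnt x.1 j - b') 0 with hy
  have hy0 : 0 ≤ y := le_max_right _ _
  set A := ∑ s, wt x s * (cnt (x + gen lab s).1 j - cnt x.1 j) with hA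
  have hA1 : A ≤ 65 * rho l μ j := sum_crude lab hr x j id rfl (fun d hd => by
    have := le_abs_self d; simp only [id]; linarith) le_rfl (by norm_num)
  have hB := sum_crude lab hr x j (fun d => d ^ 2) (by norm_num) (fun d hd => by
    have := sq_abs d; nlinarith [abs_nonneg d]) (by norm_num) (by norm_num)
  have h1 : ∑ s, wt x s * max (cnt (x + gen lab s).1 j - b') 0 ^ 2 ≤
      w * y ^ 2 + 2 * y * A + 65 * rho l μ j := by
    refine le_trans ?_ (add_le_add le_rfl hB)
    rw [hwdef, hA, Finset.sum_mul, Finset.mul_sum, ← Finset.sum_add_distrib,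
      ← Finset.sum_add_distrib]
    refine Finset.sum_le_sum fun s _ => ?_
    have h2 : max (cnt (x + gen lab s).1 j - b') 0 ^ 2 ≤
        (y + (cnt (x + gen lab s).1 j - cnt x.1 j)) ^ 2 := by
      rcases le_total (cnt (x + gen lab s).1 j - b') 0 with h3 | h3
      · rw [max_eq_right h3]; nlinarith [sq_nonneg (y + (cnt (x + gen lab s).1 j - cnt x.1 j))]
      · rw [max_eq_left h3]
        have : cnt x.1 j - b' ≤ y := le_max_left _ _
        exact pow_le_pow_left₀ h3 (by linarith) 2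
    have h3 := mul_le_mul_of_nonneg_left h2 (zero_le_one.trans (wt_ge x s))
    linarith
  have hρ := rho_nonneg (l := l) (μ := μ) j
  have hv0 : 0 ≤ v := by rw [hv]; positivity
  have hvw : 33 * rho l μ j ≤ v * w := by
    rw [hv, div_mul_eq_mul_div, le_div_iff₀ hD]
    exact mul_le_mul_of_nonneg_left hw (by positivity)
  have hw0 : 0 < w := hD.trans_le hw
  have h2 : (∑ s, wt x s * max (cnt (x + gen lab s).1 j - b') 0 ^ 2) / (2 * w) ≤
      y ^ 2 / 2 + y * A / w + v := by
    rw [div_le_iff₀ (by positivity)]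
    have : (y ^ 2 / 2 + y * A / w + v) * (2 * w) = w * y ^ 2 + 2 * y * A + 2 * (v * w) := by
      field_simp
    linarith
  have h3 : y ^ 2 + y * A / w ≤ max (cnt x.1 j - b) 0 ^ 2 := by
    rcases hy0.eq_or_lt with h0 | h0
    · rw [← h0]; simp
    have hy1 : y = cnt x.1 j - b' := by
      rw [hy] at h0 ⊢
      exact max_eq_left (lt_max_iff.mp h0 |>.resolve_right (lt_irrefl _)).le
    have h4 : cnt x.1 j - b ≤ max (cnt x.1 j - b) 0 := le_max_left _ _
    rcases h with h | ⟨h, h'⟩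
    · have h5 : y * A / w ≤ y * (2 * v) := by
        rw [mul_div_assoc]
        refine mul_le_mul_of_nonneg_left ?_ hy0
        rw [div_le_iff₀ hw0]; linarith
      have h6 : (y + v) ^ 2 ≤ max (cnt x.1 j - b) 0 ^ 2 :=
        pow_le_pow_left₀ (by positivity) (by linarith) 2
      nlinarith [sq_nonneg v]
    · have h5 : y * A / w ≤ 0 :=
        div_nonpos_of_nonpos_of_nonneg (mul_nonpos_of_nonneg_of_nonpos hy0 (h' (by linarith)))
          hw0.le
      have h6 : y ^ 2 ≤ max (cnt x.1 j - b) 0 ^ 2 := pow_le_pow_left₀ hy0 (by linarith) 2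
      linarith
  linarith

/-- Characters of the vertex group. -/
def ch (a x : Vx J l m) : ℝ := chi a.1 x.1 * chi a.2 x.2

lemma ch_add (a x y : Vx J l m) : ch a (x + y) = ch a x * ch a y := by
  simp only [ch, Prod.fst_add, Prod.snd_add, chi_add]; ring

lemma ch_symm (a x : Vx J l m) : ch a x = ch x a := by
  simp only [ch, chi_symm a.1, chi_symm a.2]

lemma sum_ch (x : Vx J l m) :
    ∑ a, ch a x = if x = 0 then (Fintype.card (Vx J l m) : ℝ) else 0 := by
  simp only [ch, Fintype.sum_prod_type, ← Finset.mul_sum, ← Finset.sum_mul, sum_chi,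
    Fintype.card_prod, Prod.ext_iff, Prod.fst_zero, Prod.snd_zero]
  by_cases h1 : x.1 = 0 <;> by_cases h2 : x.2 = 0 <;> simp [h1, h2]

lemma small_set (hJ : 0 < J) (hl : 1024 ≤ l 0) :
    (((univ : Finset (Vx J l m)).filter fun x => cnt x.1 0 < l 0 / 4).card : ℝ) ≤
      Fintype.card (Vx J l m) / 256 := by
  have hL : (1024 : ℝ) ≤ l 0 := by exact_mod_cast hl
  have h1 : ∑ x : Vx J l m, (∑ u : Fin (l 0), sgn (bit x.1 0 u)) ^ 2 =
      Fintype.card (Vx J l m) * l 0 := by
    have e : ∀ (x : Vx J l m) (u u' : Fin (l 0)), sgn (bit x.1 0 u) * sgn (bit x.1 0 u') =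
        ch x (E J 0 u + E J 0 u', 0) := by
      intro x u u'; simp [ch, chi_add, chi_E]
    simp only [sq, Finset.sum_mul_sum, e]
    rw [Finset.sum_comm]
    rw [Finset.sum_congr rfl fun u _ => Finset.sum_comm]
    have e2 : ∀ u u' : Fin (l 0), ((E J 0 u + E J 0 u', 0) : Vx J l m) = 0 ↔ u = u' := by
      intro u u'
      constructor
      · intro h
        by_contra hne
        have h3 := congrArg (fun y : Vx J l m => bit y.1 0 u) h
        simp [bit_add, bit_E, hJ, hne, Fin.val_inj] at h3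
        simp [bit] at h3
      · rintro rfl; exact Prod.ext (pi_add_self _) rfl
    simp only [sum_ch, e2, Finset.sum_ite_eq, mem_univ, if_true, Finset.sum_const,
      Finset.card_univ, Fintype.card_fin, nsmul_eq_mul]
    ring
  have h2 : ∑ _x ∈ (univ : Finset (Vx J l m)).filter fun x => cnt x.1 0 < l 0 / 4,
      ((l 0 : ℝ) / 2) ^ 2 ≤ ∑ x : Vx J l m, (∑ u : Fin (l 0), sgn (bit x.1 0 u)) ^ 2 := by
    refine le_trans (Finset.sum_le_sum fun x hx => ?_)
      (Finset.sum_le_sum_of_subset_of_nonneg (filter_subset _ _) fun _ _ _ => sq_nonneg _)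
    rw [sum_sgn]
    have := (mem_filter.mp hx).2
    exact pow_le_pow_left₀ (by positivity) (by linarith) 2
  rw [h1, Finset.sum_const, nsmul_eq_mul] at h2
  have hN : (0 : ℝ) ≤ Fintype.card (Vx J l m) := Nat.cast_nonneg _
  set c : ℝ := (((univ : Finset (Vx J l m)).filter fun x => cnt x.1 0 < l 0 / 4).card : ℝ)
  have hc : 0 ≤ c := Nat.cast_nonneg _
  have h3 : c * (l 0 / 4) ≤ Fintype.card (Vx J l m) := by
    refine le_of_mul_le_mul_right ?_ (show (0 : ℝ) < l 0 by linarith)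
    nlinarith
  nlinarith

theorem slow (lab : Ix J l μ → Fin m → ZMod 2) (hJ : 0 < J)
    (hr : ∀ i, i + 1 < J → 256 * rho l μ i ≤ rho l μ (i + 1)) (hl : ∀ i, 1024 ≤ l i)
    (hρ : ∀ i < J, 0 < rho l μ i) (hD : (0 : ℝ) < Fintype.card (Sx J l μ m)) {t : ℕ}
    (ht : (t : ℝ) ≤ ∑ i ∈ range J, (l i : ℝ) / (30 * (33 * rho l μ i / Fintype.card (Sx J l μ m))))
    (hε : (t : ℝ) * ∑ j : Fin J, (33 * rho l μ j / Fintype.card (Sx J l μ m)) / ((l j : ℝ) / 20) ^ 2
      ≤ 1 / 4) : ¬ MixP (Wm (gen lab) wt) t := by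
  set v : ℕ → ℝ := fun i => 33 * rho l μ i / Fintype.card (Sx J l μ m) with hv
  have hv0 : ∀ i < J, 0 < v i := fun i hi => by have := hρ i hi; simp only [hv]; positivity
  have hL : ∀ i, (1024 : ℝ) ≤ l i := fun i => by exact_mod_cast hl i
  set S : ℕ → ℝ := fun j => ∑ i ∈ Ico j J, l i / (30 * v i) with hS
  have hSs : ∀ j < J, S j = l j / (30 * v j) + S (j + 1) := fun j hj =>
    Finset.sum_eq_sum_Ico_succ_bot hj _
  have hS0 : ∀ j, 0 ≤ S j := fun j => Finset.sum_nonneg fun i hi => by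
    have := hv0 i (mem_Ico.mp hi).2; positivity
  set b : ℕ → ℕ → ℝ := fun j t => l j / 6 + v j * max (t - S (j + 1)) 0 with hb
  have hb5 : ∀ j < J, ∀ t : ℕ, (t : ℝ) ≤ S j → b j t ≤ l j / 5 := by
    intro j hj t ht
    have h1 := hv0 j hj
    have h2 : max ((t : ℝ) - S (j + 1)) 0 ≤ l j / (30 * v j) :=
      max_le (by rw [hSs j hj] at ht; linarith) (by positivity)
    have h3 := mul_le_mul_of_nonneg_left h2 h1.le
    have h4 : v j * (l j / (30 * v j)) = l j / 30 := by field_simp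
    simp only [hb]
    linarith
  set G : ℕ → Vx J l m → ℝ :=
    fun t x => ∑ j : Fin J, max (cnt x.1 j - b j t) 0 ^ 2 / ((l j : ℝ) / 20) ^ 2 with hG
  have hG0 : ∀ t x, 0 ≤ G t x := fun t x => Finset.sum_nonneg fun _ _ => by positivity
  have hGlt : ∀ t x, G t x < 1 → ∀ j < J, cnt x.1 j < b j t + l j / 20 := by
    intro t x h j hj
    by_contra hc
    push Not at hc
    have h1 : max (cnt x.1 j - b j t) 0 ^ 2 / ((l j : ℝ) / 20) ^ 2 ≤ G t x :=
      Finset.single_le_sum (f := fun j : Fin J =>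
        max (cnt x.1 j - b j t) 0 ^ 2 / ((l j : ℝ) / 20) ^ 2) (fun _ _ => by positivity)
        (mem_univ ⟨j, hj⟩)
    have h2 := hL j
    have h3 : ((l j : ℝ) / 20) ^ 2 ≤ max (cnt x.1 j - b j t) 0 ^ 2 :=
      pow_le_pow_left₀ (by positivity) (le_max_of_le_left (by linarith)) 2
    have h4 := (one_le_div₀ (by positivity)).mpr h3
    linarith
  have hW0 : ∀ a c : Vx J l m, 0 ≤ Wm (gen lab) wt a c := fun a c =>
    Finset.sum_nonneg fun s _ => by
      split_ifs
      · exact zero_le_one.trans (wt_ge a s)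
      · exact le_rfl
  have hWp : ∀ a : Vx J l m, 0 < ∑ z, Wm (gen lab) wt a z := fun a => by
    rw [sum_Wm']; exact hD.trans_le (sum_wt_ge a)
  have hmono : ∀ (f g : Vx J l m → ℝ), (∀ y, f y ≤ g y) → ∀ x,
      (Pm (Wm (gen lab) wt) *ᵥ f) x ≤ (Pm (Wm (gen lab) wt) *ᵥ g) x := fun f g h x =>
    Finset.sum_le_sum fun y _ => mul_le_mul_of_nonneg_left (h y)
      (by simpa using Pm_pow_nonneg hW0 1 x y)
  refine not_mix hW0 hWp (fun t x => min 1 (G t x)) ?_ 0 ?_ hε
    (univ.filter fun x => cnt x.1 0 < l 0 / 4) (fun y => le_min zero_le_one (hG0 t y)) ?_ ?_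
  · intro t x
    have hε0 : 0 ≤ ∑ j : Fin J, v j / ((l j : ℝ) / 20) ^ 2 :=
      Finset.sum_nonneg fun j _ => by have := hv0 j j.2; positivity
    by_cases h1 : G t x < 1
    · rw [min_eq_right h1.le]
      refine (hmono _ (G (t + 1)) (fun y => min_le_right _ _) x).trans ?_
      have e : G (t + 1) = ∑ j : Fin J, (((l j : ℝ) / 20) ^ 2)⁻¹ •
          fun y : Vx J l m => max (cnt y.1 j - b j (t + 1)) 0 ^ 2 := by
        funext y; simp only [hG, Finset.sum_apply, Pi.smul_apply, smul_eq_mul, div_eq_inv_mul]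
      rw [e, mulVec_sum, Finset.sum_apply, hG, ← Finset.sum_add_distrib]
      refine Finset.sum_le_sum fun j _ => ?_
      rw [mulVec_smul, Pi.smul_apply, smul_eq_mul, ← add_div,
        div_eq_inv_mul _ (((l j : ℝ) / 20) ^ 2)]
      refine mul_le_mul_of_nonneg_left (step lab hr hD x j (v := v j) rfl ?_) (by positivity)
      have h2 := hv0 j j.2
      by_cases h3 : S (j + 1) ≤ t
      · left
        simp only [hb]
        rw [max_eq_left (by push_cast; linarith), max_eq_left (by linarith)]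
        push_cast; ring
      · right
        push Not at h3
        have h4 : (j : ℕ) + 1 < J := by
          by_contra h5
          have : S (j + 1) = 0 := by
            simp only [hS]; rw [Finset.Ico_eq_empty h5, Finset.sum_empty]
          have h6 : (0 : ℝ) ≤ t := Nat.cast_nonneg _
          linarith
        refine ⟨?_, fun h5 => sum_drift lab hr x j h4 (by have := hl (j + 1); omega) ?_ ?_⟩
        · simp only [hb]; gcongr; simp
        · have := hGlt t x h1 _ h4
          have := hb5 _ h4 t h3.le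
          linarith
        · have : 0 ≤ v j * max (((t + 1 : ℕ) : ℝ) - S (j + 1)) 0 := by positivity
          simp only [hb] at h5
          linarith
    · push Not at h1
      rw [min_eq_left h1]
      refine (hmono _ (fun _ => 1) (fun y => min_le_left _ _) x).trans ?_
      have := congrFun (Pm_pow_one hWp 1) x
      rw [pow_one] at this
      rw [this]
      exact le_add_of_nonneg_right hε0
  · have : G 0 0 = 0 := Finset.sum_eq_zero fun j _ => by
      have h1 : cnt (0 : Vx J l m).1 j = 0 := by simp [cnt, bit]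
      have h2 := hv0 j j.2
      have h3 : 0 ≤ b j 0 := by simp only [hb]; positivity
      rw [h1, max_eq_right (by linarith)]; simp
    simp [this]
  · intro y hy
    refine le_min le_rfl ?_
    by_contra h
    push Not at h
    have h1 := hGlt t y h 0 hJ
    have h2 := hb5 0 hJ t (by simp only [hS]; rwa [← Finset.range_eq_Ico])
    simp only [mem_filter, mem_univ, true_and, not_lt] at hy
    linarith
  · have hN : (0 : ℝ) < Fintype.card (Vx J l m) := by exact_mod_cast Fintype.card_pos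
    have h1 : (Fintype.card (Vx J l m) : ℝ) * Fintype.card (Sx J l μ m) ≤
        ∑ a : Vx J l m, ∑ c, Wm (gen lab) wt a c := by
      have := Finset.sum_le_sum fun a (_ : a ∈ (univ : Finset (Vx J l m))) =>
        (sum_wt_ge (μ := μ) a).trans (sum_Wm' (gen lab) wt a).ge
      rwa [Finset.sum_const, Finset.card_univ, nsmul_eq_mul] at this
    refine (Finset.sum_le_sum (g := fun _ => 64 / (Fintype.card (Vx J l m) : ℝ))
      fun y _ => ?_).trans ?_
    · rw [sum_Wm', div_le_div_iff₀ (lt_of_lt_of_le (by positivity) h1) hN]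
      have := sum_wt_le (μ := μ) y
      nlinarith
    · rw [Finset.sum_const, nsmul_eq_mul, ← mul_div_assoc, div_le_iff₀ hN]
      have := small_set (m := m) hJ (hl 0)
      linarith

end Pool.Agent.H93Z.Rob
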